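import Pool.Agent.Q92.FP.Fin

/-!
# Irreducibility for every `ℓ` from few Rankin-Selberg coefficients

Let `π` be an algebraic cuspidal automorphic representation of `GL_n` over `ℚ`, with Satake
parameters `S p` (`p ∉ T`).  The Rankin-Selberg coefficients of `π` are
`c_p = ∑_{a, b ∈ S p} a / b`, that is, the coefficients at `p` of `L(s, π × π^∨)`.  We show: if the
`c_p` lie in a finite set for all primes outside a set of upper density `≤ c` with `c n ^ 4 < 1`,
then for EVERY prime `ℓ` every continuous semisimple representation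
`ρ : Gal(ℚbar/ℚ) → GL_n(ℚbar_ℓ)` attached to `π` is irreducible (and its projective image is
finite).  Nothing is assumed at the infinite place or at `ℓ`, no regularity, no self-duality, no
purity, and nothing on the size or the algebraicity of the Satake parameters.

The only property of `π` used besides its Satake parameters is the prime number theorem for
`L(s, π × π^∨)` (Rankin, Selberg, Jacquet, Piatetski-Shapiro, Shalika, Shahidi), for `π` which are
tempered (up to a twist) at almost all primes: the mean value of the `c_p` is `1`.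

Proof.  The function `c(g) = tr ρ(g) tr ρ(g⁻¹)` is a continuous class function on `Gal(ℚbar/ℚ)`, the
character of the adjoint representation.  By Chebotarev's theorem it has its values in a finite set
on a closed subset of Haar measure `≥ 1 - c`; as its translates lie in a space of dimension `n ^ 4`,
the group of its periods has finite index.  The periods have unipotent adjoint images, and by an
argument with polynomials (powers of a unipotent matrix are polynomials in the exponent, while the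
`n`-th powers of the normalised traces are constant) and Clifford's theorem they act by scalars.  So
the projective image is finite, the quotients of the Satake parameters are roots of unity, and by
Chebotarev's theorem the mean value of the `c_p` is the dimension of the commutant of `ρ`.
-/

set_option autoImplicit false

namespace Pool.Agent.Results.MP_fa5bba_nt.FiniteProjectiveType

open NumberField Polynomial Matrix Filter Topology

/-- `Q` is a prime ideal above the prime number `p` of the ring of all algebraic integers. -/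
def PrimeOver (p : ℕ) (Q : Ideal (𝓞 (AlgebraicClosure ℚ))) : Prop :=
  Q.IsPrime ∧ (p : 𝓞 (AlgebraicClosure ℚ)) ∈ Q

/-- `g` is in the inertia group at `Q`. -/
def IsInertia (Q : Ideal (𝓞 (AlgebraicClosure ℚ))) (g : Gal(AlgebraicClosure ℚ/ℚ)) : Prop :=
  ∀ x : 𝓞 (AlgebraicClosure ℚ), g • x - x ∈ Q

/-- `g` is an (arithmetic) Frobenius element at the prime ideal `Q` above `p`. -/
def IsFrobenius (p : ℕ) (Q : Ideal (𝓞 (AlgebraicClosure ℚ))) (g : Gal(AlgebraicClosure ℚ/ℚ)) :
    Prop := ∀ x : 𝓞 (AlgebraicClosure ℚ), g • x - x ^ p ∈ Q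

variable {ℓ : ℕ} [Fact ℓ.Prime] {n : ℕ}

/-- The matrix of `g`. -/
noncomputable def mat (ρ : Gal(AlgebraicClosure ℚ/ℚ) →* GL (Fin n) (PadicAlgCl ℓ))
    (g : Gal(AlgebraicClosure ℚ/ℚ)) : Matrix (Fin n) (Fin n) (PadicAlgCl ℓ) :=
  (ρ g : GL (Fin n) (PadicAlgCl ℓ))

/-- The representation `ρ` is unramified at `p`, and the eigenvalues (with multiplicities) of every
geometric Frobenius element at `p` correspond under `ι` to the complex numbers in `S`. -/
structure AttachedAt (ρ : Gal(AlgebraicClosure ℚ/ℚ) →* GL (Fin n) (PadicAlgCl ℓ))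
    (ι : PadicAlgCl ℓ →+* ℂ) (p : ℕ) (S : Multiset ℂ) : Prop where
  unramified : ∀ Q, PrimeOver p Q → ∀ g, IsInertia Q g → ρ g = 1
  frobenius : ∀ Q, PrimeOver p Q → ∀ g, IsFrobenius p Q g → ((mat ρ g⁻¹).charpoly.map ι).roots = S

/-- `U` is a subrepresentation of `ρ`. -/
def Stable (ρ : Gal(AlgebraicClosure ℚ/ℚ) →* GL (Fin n) (PadicAlgCl ℓ))
    (U : Submodule (PadicAlgCl ℓ) (Fin n → PadicAlgCl ℓ)) : Prop := ∀ g, ∀ x ∈ U, mat ρ g *ᵥ x ∈ U

/-- `ρ` is irreducible. -/
def Irreducible (ρ : Gal(AlgebraicClosure ℚ/ℚ) →* GL (Fin n) (PadicAlgCl ℓ)) : Prop :=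
  0 < n ∧ ∀ U, Stable ρ U → U = ⊥ ∨ U = ⊤

/-- `ρ` is semisimple. -/
def Semisimple (ρ : Gal(AlgebraicClosure ℚ/ℚ) →* GL (Fin n) (PadicAlgCl ℓ)) : Prop :=
  ∀ U, Stable ρ U → ∃ U', Stable ρ U' ∧ IsCompl U U'

/-- The projective image of `ρ` is finite: an open subgroup (of the compact group
`Gal(ℚbar/ℚ)`) acts by scalars. -/
def FiniteProjectiveImage (ρ : Gal(AlgebraicClosure ℚ/ℚ) →* GL (Fin n) (PadicAlgCl ℓ)) : Prop :=
  ∃ U : Subgroup Gal(AlgebraicClosure ℚ/ℚ), IsOpen (U : Set Gal(AlgebraicClosure ℚ/ℚ)) ∧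
    ∀ g ∈ U, ∃ c : PadicAlgCl ℓ, mat ρ g = c • (1 : Matrix (Fin n) (Fin n) (PadicAlgCl ℓ))

/-- The Rankin-Selberg coefficient `∑ a / b` (`a`, `b` in `A`) of the Satake parameter `A`. -/
noncomputable def coeff (A : Multiset ℂ) : ℂ := A.sum * (A.map fun a => a⁻¹).sum

/-- The Rankin-Selberg coefficients lie in a finite set for all primes outside a set `Z` of upper
density at most `c`, where `c n ^ 4 < 1`. -/
def FewValues (n : ℕ) (S : ℕ → Multiset ℂ) : Prop :=
  ∃ (F : Finset ℂ) (Z : Set ℕ) (c : ℝ), c * n ^ 4 < 1 ∧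
    (∀ᶠ N : ℕ in atTop, (({p : ℕ | p.Prime ∧ p ≤ N ∧ p ∈ Z}.ncard : ℕ) : ℝ) ≤
      c * (Nat.primeCounting N : ℝ)) ∧
    ∀ p : ℕ, p.Prime → p ∉ Z → coeff (S p) ∈ F

/-- The prime number theorem for `L(s, π × π^∨)`, where `π` has the Satake parameters `S p` for
`p ∉ T`, in the form: if at almost all primes all Satake parameters have the same absolute value,
then the mean value of the Rankin-Selberg coefficients is `1`. -/
def RankinSelberg (S : ℕ → Multiset ℂ) (T : Finset ℕ) : Prop :=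
  (∀ᶠ p : ℕ in atTop, p.Prime → ∀ a ∈ S p, ∀ b ∈ S p, ‖a‖ = ‖b‖) →
    Tendsto (fun N : ℕ => (∑ p ∈ (Finset.range (N + 1)).filter (fun p => p.Prime ∧ p ∉ T),
      coeff (S p)) / (Nat.primeCounting N : ℂ)) atTop (𝓝 1)

/-- **Irreducibility for every `ℓ` from few Rankin-Selberg coefficients.**

Let `n > 0` and let multisets `S p` of complex numbers be given for the primes `p` (the Satake
parameters of a cuspidal automorphic representation `π` of `GL_n`, unramified outside the finite set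
`T`), such that the Rankin-Selberg coefficients have few values (`FewValues`) and the prime number
theorem for `L(s, π × π^∨)` holds (`RankinSelberg`).  Then for every prime `ℓ`, every embedding `ι`
of `ℚbar_ℓ` in `ℂ`, every continuous semisimple `ρ : Gal(ℚbar/ℚ) → GL_n(ℚbar_ℓ)` attached to the
`S p` at all `p ∉ T`, `p ≠ ℓ`, is irreducible, its projective image is finite, and for some `k > 0`
all `a`, `b` in `S p` (`p ∉ T`, `p ≠ ℓ`) satisfy `a ^ k = b ^ k` (so `π` is tempered up to a twist). -/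
theorem result {n : ℕ} (hn : 0 < n) (S : ℕ → Multiset ℂ) (T : Finset ℕ) (hF : FewValues n S)
    (hRS : RankinSelberg S T) (ℓ : ℕ) [Fact ℓ.Prime] (ι : PadicAlgCl ℓ →+* ℂ)
    (ρ : Gal(AlgebraicClosure ℚ/ℚ) →* GL (Fin n) (PadicAlgCl ℓ)) (hρ : Continuous ρ)
    (hss : Semisimple ρ) (hS : ∀ p : ℕ, p.Prime → p ∉ T → p ≠ ℓ → AttachedAt ρ ι p (S p)) :
    Irreducible ρ ∧ FiniteProjectiveImage ρ ∧
      ∃ k : ℕ, 0 < k ∧ ∀ p : ℕ, p.Prime → p ∉ T → p ≠ ℓ → ∀ a ∈ S p, ∀ b ∈ S p, a ^ k = b ^ k := by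
  classical
  obtain ⟨F, Z, c, hc, hZ, hFZ⟩ := hF
  -- the coefficient at Frobenius elements
  have hfrob : ∀ p : ℕ, p.Prime → p ∉ insert ℓ T → ∀ P : Ideal Pool.Agent.Y800.ZBar, P.IsMaximal →
      (p : Pool.Agent.Y800.ZBar) ∈ P →
      ∀ σ : Pool.Agent.Y800.GQ, (∀ x : Pool.Agent.Y800.ZBar, σ • x - x ^ p ∈ P) →
      ι (Pool.Agent.Q92.FP.adc ρ σ) = coeff (S p) := by
    intro p hp hpB P hP hpP σ hσ
    rw [Finset.mem_insert, not_or] at hpB
    exact (Pool.Agent.Q92.FP.coeff_eq ((hS p hp hpB.2 hpB.1).frobenius P ⟨hP.isPrime, hpP⟩ σ hσ)).1.symm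
  have hopen := Pool.Agent.Q92.FP.open_Per ρ hρ ι (fun p => coeff (S p)) (insert ℓ T) F Z c hn hc hZ
    hFZ hfrob
  have hproj : FiniteProjectiveImage ρ := by
    refine ⟨_, hopen, fun g hg => ?_⟩
    obtain ⟨χ, -, hχ⟩ := Pool.Agent.Q92.FP.scalar_of_Per hn ρ hss hg
    exact ⟨χ, hχ⟩
  obtain ⟨k, hk0, hk⟩ := Pool.Agent.Q92.FP.exists_pow_scalar hn ρ hss hopen
  -- the quotients of the Satake parameters are roots of unity
  have hpow : ∀ p : ℕ, p.Prime → p ∉ T → p ≠ ℓ → ∀ a ∈ S p, ∀ b ∈ S p, a ^ k = b ^ k := by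
    intro p hp hpT hpℓ a ha b hb
    obtain ⟨Q, σ, hQ, hpQ, hQσ⟩ := Pool.Agent.Q92.FP.exists_frobenius hp
    have h2 := (Pool.Agent.Q92.FP.coeff_eq
      ((hS p hp hpT hpℓ).frobenius Q ⟨hQ.isPrime, hpQ⟩ σ hQσ)).2
    obtain ⟨χ, hχ⟩ := hk σ⁻¹
    have h4 : ∀ a ∈ S p, a ^ k = ι χ := by
      intro a ha
      rw [h2, Multiset.mem_map] at ha
      obtain ⟨a0, ha0, rfl⟩ := ha
      rw [← map_pow, Pool.Agent.Q92.FP.pow_eigen hχ ha0]
    rw [h4 a ha, h4 b hb]
  refine ⟨⟨hn, fun U hU => ?_⟩, hproj, k, Nat.pos_of_ne_zero hk0, hpow⟩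
  have htemp : ∀ᶠ p : ℕ in atTop, p.Prime → ∀ a ∈ S p, ∀ b ∈ S p, ‖a‖ = ‖b‖ := by
    filter_upwards [eventually_gt_atTop ((insert ℓ T).sup id)] with p hpB hp a ha b hb
    have hpB' : p ∉ insert ℓ T := fun h => absurd (Finset.le_sup (f := id) h) (not_le.2 hpB)
    rw [Finset.mem_insert, not_or] at hpB'
    have h5 : ‖a‖ ^ k = ‖b‖ ^ k := by rw [← norm_pow, ← norm_pow, hpow p hp hpB'.2 hpB'.1 a ha b hb]
    exact (pow_left_inj₀ (norm_nonneg a) (norm_nonneg b) hk0).1 h5
  exact Pool.Agent.Q92.FP.irreducible_of_mean hn ρ hss hopen ι (fun p => coeff (S p)) T (insert ℓ T)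
    (Finset.subset_insert _ _) hfrob (hRS htemp) U hU

end Pool.Agent.Results.MP_fa5bba_nt.FiniteProjectiveType
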