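import Mathlib
import Pool.Agent.Q70.IR.Gal

/-!
# Irreducibility for every `ℓ` from one Satake polynomial

Let `π` be an algebraic cuspidal automorphic representation of `GL_n` over `ℚ` and
`ρ : Gal(ℚbar/ℚ) → GL_n(ℚbar_ℓ)` a continuous representation attached to `π`.  The theorem gives
criteria for the irreducibility of `ρ` in terms of the Satake parameters of `π` at **one** prime
number `p ≠ ℓ`, so that the irreducibility follows for all `ℓ ≠ p` and all isomorphisms of `ℂ` with
`ℚbar_ℓ` at once.  Let `E` be a subfield of `ℂ` which contains the coefficients of the Satake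
polynomial at `p` (for instance the field of rationality of `π`), and suppose that the `n` Satake
parameters at `p` (normalised as in the problem) are the roots of an irreducible polynomial over `E`
and that the quotient of **two** of them is not a root of unity.

* **If `n` is a prime number, then `ρ` is irreducible.**
* If `n` is a power of the prime number `q`, then the dimension of every subrepresentation of `ρ`
  is divisible by `q`.
* If the Galois group of the polynomial is doubly transitive, then `ρ` is irreducible (`n`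
  arbitrary).

Moreover

* if the `n` Satake parameters at `p` are multiplicatively independent (the Frobenius torus at `p`
  has rank `n`), then `ρ` is irreducible;
* (essentially self-dual representations, where the above is never satisfied for `n > 2`) if the
  Satake parameters at `p` are `α_1, …, α_g, μ / α_1, …, μ / α_g`, where a power of `μ` is a power of
  `p`, and `α_1, …, α_g` and `p` are multiplicatively independent (the Frobenius torus at `p` has the
  maximal rank `g + 1`), then for every subrepresentation of `ρ` the parameters at `p` are a union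
  of pairs `α_i, μ / α_i`; in particular its dimension is even, and all chains of
  subrepresentations have length at most `n / 2`.

Nothing is assumed on the infinite component of `π` (no regularity), on `ρ` at `ℓ`, and no purity
(Ramanujan).  All that is used of the other Satake parameters is that they are algebraic at
three primes (known for regular algebraic `π`, by Clozel).

What is known: `n = 2` (Ribet); `n = 3`, regular algebraic `π` (Blasius and Rogawski for essentially
self-dual `π`, Böckle and Hui in general); for `n ≤ 5` or `6` and regular, essentially self-dual `π`,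
and for regular essentially self-dual `π` in general, irreducibility is known for a set of primes
`ℓ` of density one or of positive density (Calegari and Gee, Patrikis and Taylor, and others); for
representations which are square integrable at one place Taylor and Yoshida and, in the starting
files, `SteinbergTypePlace`.  For `π` which are not essentially self-dual and `n ≥ 4` we do not
know of a criterion of this kind in the literature.

The proof.  The determinant of a subrepresentation `U` is a continuous character with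
algebraic values at three Frobenius elements, hence a rational power of the cyclotomic character up
to finite order: this uses the `ℓ`-adic six exponentials theorem, which is proved in the
starting library `Pool.Agent.Y115`.  Hence there are `N > 0` and `c` such that at every prime
the `N`-th power of the product of some `dim U` of the Satake parameters is `p ^ c` (first part of
the theorem).  The integral relations `∏ α ^ k(α) ∈ p ^ ℤ`, up to roots of unity, at one prime are a
saturated lattice `W` in the functions on the set of the roots, invariant under the Galois group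
of the polynomial, which contains the characteristic function of the `dim U` roots above.  If the
number of roots is a power of `q` and `dim U` is not divisible by `q` then `W` contains
everything: otherwise the orthogonal complement of `W` modulo `q` is not zero, and contains a vector
fixed by a Sylow subgroup, which is transitive; so it is a constant, and this is not orthogonal to the
characteristic function.  Then all `α ^ N'` are equal for some `N' > 0`, a contradiction.  For doubly
transitive groups, `W` contains the differences of the characteristic functions of two roots.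
-/

set_option autoImplicit false

namespace Pool.Agent.Results.MP_fa5bba_nt.OneSatakePolynomial

open NumberField Polynomial Matrix Module

/-- `Q` is a prime ideal above the prime number `p` of the ring of all algebraic integers. -/
def PrimeOver (p : ℕ) (Q : Ideal (𝓞 (AlgebraicClosure ℚ))) : Prop :=
  Q.IsPrime ∧ (p : 𝓞 (AlgebraicClosure ℚ)) ∈ Q

/-- `g` is in the inertia group at `Q`. -/
def IsInertia (Q : Ideal (𝓞 (AlgebraicClosure ℚ))) (g : Gal(AlgebraicClosure ℚ/ℚ)) : Prop :=
  ∀ x : 𝓞 (AlgebraicClosure ℚ), g • x - x ∈ Q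

/-- `g` is an (arithmetic) Frobenius element at the prime ideal `Q` above `p`. -/
def IsFrobenius (p : ℕ) (Q : Ideal (𝓞 (AlgebraicClosure ℚ))) (g : Gal(AlgebraicClosure ℚ/ℚ)) :
    Prop := ∀ x : 𝓞 (AlgebraicClosure ℚ), g • x - x ^ p ∈ Q

variable {ℓ : ℕ} [Fact ℓ.Prime] {n : ℕ}

/-- The matrix of `g`. -/
noncomputable def mat (ρ : Gal(AlgebraicClosure ℚ/ℚ) →* GL (Fin n) (PadicAlgCl ℓ))
    (g : Gal(AlgebraicClosure ℚ/ℚ)) : Matrix (Fin n) (Fin n) (PadicAlgCl ℓ) :=
  (ρ g : GL (Fin n) (PadicAlgCl ℓ))

/-- The representation `ρ` is unramified at `p`, and the eigenvalues (with multiplicities) of every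
geometric Frobenius element at `p` correspond under `ι` to the complex numbers in `S`. -/
structure AttachedAt (ρ : Gal(AlgebraicClosure ℚ/ℚ) →* GL (Fin n) (PadicAlgCl ℓ))
    (ι : PadicAlgCl ℓ →+* ℂ) (p : ℕ) (S : Multiset ℂ) : Prop where
  unramified : ∀ Q, PrimeOver p Q → ∀ g, IsInertia Q g → ρ g = 1
  frobenius : ∀ Q, PrimeOver p Q → ∀ g, IsFrobenius p Q g → ((mat ρ g⁻¹).charpoly.map ι).roots = S

/-- `U` is a subrepresentation of `ρ`. -/
def Stable (ρ : Gal(AlgebraicClosure ℚ/ℚ) →* GL (Fin n) (PadicAlgCl ℓ))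
    (U : Submodule (PadicAlgCl ℓ) (Fin n → PadicAlgCl ℓ)) : Prop := ∀ g, ∀ x ∈ U, mat ρ g *ᵥ x ∈ U

/-- `ρ` is irreducible. -/
def IsIrreducible (ρ : Gal(AlgebraicClosure ℚ/ℚ) →* GL (Fin n) (PadicAlgCl ℓ)) : Prop :=
  0 < n ∧ ∀ U, Stable ρ U → U = ⊥ ∨ U = ⊤

/-- `S` is the set of the roots of an irreducible polynomial with coefficients in the subfield `E`
of `ℂ`. -/
def IrreducibleOver (E : Subfield ℂ) (S : Multiset ℂ) : Prop :=
  ∃ P : E[X], Irreducible P ∧ (P.map (algebraMap E ℂ)).roots = S

/-- Two members of `S` can be mapped to any two (different) members of `S` by an automorphism of `ℂ`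
which is the identity on `E`. -/
def DoublyTransitiveOver (E : Subfield ℂ) (S : Multiset ℂ) : Prop :=
  ∀ a ∈ S, ∀ b ∈ S, ∀ c ∈ S, ∀ d ∈ S, a ≠ b → c ≠ d →
    ∃ σ : ℂ ≃+* ℂ, (∀ x ∈ E, σ x = x) ∧ σ a = c ∧ σ b = d

/-- The quotient of two members of `S` is not a root of unity. -/
def TwoUnrelated (S : Multiset ℂ) : Prop := ∃ x ∈ S, ∃ y ∈ S, ∀ N : ℕ, 0 < N → x ^ N ≠ y ^ N

/-- The members of `S` are different and multiplicatively independent. -/
def Independent (S : Multiset ℂ) : Prop :=
  S.Nodup ∧ ∀ k : ℂ → ℤ, (S.map fun a => a ^ k a).prod = 1 → ∀ a ∈ S, k a = 0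

/-- `S` consists of `α_1, …, α_g, μ / α_1, …, μ / α_g`, a power of `μ` is a power of `p`, and no
product of powers of the `α_i` is a power of `p` unless all exponents are `0`. -/
structure Paired (p : ℕ) (S : Multiset ℂ) (g : ℕ) (α : Fin g → ℂ) (μ : ℂ) : Prop where
  eq : S = Finset.univ.val.map α + Finset.univ.val.map fun i => μ / α i
  mul : ∃ M : ℕ, 0 < M ∧ ∃ d : ℤ, μ ^ M = (p : ℂ) ^ d
  indep : ∀ (k : Fin g → ℤ) (c : ℤ), ∏ i, α i ^ k i = (p : ℂ) ^ c → k = 0

/-- **Subrepresentations and irreducibility from the Satake parameters at one prime.**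

Let complex numbers `S p` be given for the primes `p` in a set `T` of at least three primes (in the
application the eigenvalues of the Satake parameters `a_σ`, `σ = π_p ⊗ |det|^((1-n)/2)`, of an
algebraic cuspidal automorphic representation `π` of `GL_n`), all of them algebraic.  Let `ℓ ∉ T`, and
let `ρ` be continuous and attached to `S` at the primes in `T`.

1. For every subrepresentation `U` there are `N > 0` and `c` such that for all `p ∈ T` there are
`dim U` of the numbers in `S p` whose product has the `N`-th power `p ^ c`.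
2. Let `S p`, for one `p ∈ T`, be the set of the roots of an irreducible polynomial over a field
`E ⊆ ℂ`, two of them with a quotient which is not a root of unity. If `n` is prime, or if the
automorphisms over `E` are doubly transitive on `S p`, then `ρ` is irreducible. If `n` is a power of
the prime `q`, the dimensions of all subrepresentations are divisible by `q`.
3. If the numbers in `S p` are multiplicatively independent for one `p ∈ T`, then `ρ` is irreducible.
4. If the numbers in `S p` are `α_i`, `μ / α_i`, `i ≤ g`, for one `p ∈ T`, with `μ` a power of `p` up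
to a root of unity, and the `α_i` and `p` are multiplicatively independent, then for every
subrepresentation `U` and every Frobenius element at `p` the eigenvalues on `U` are the `α_i` and
`μ / α_i` for the `i` in some set. -/
theorem result (ℓ : ℕ) [Fact ℓ.Prime] {n : ℕ} (hn : 0 < n) (S : ℕ → Multiset ℂ) (T : Set ℕ)
    (hT3 : 3 ≤ T.encard) (hT : ∀ p ∈ T, p.Prime ∧ p ≠ ℓ)
    (halg : ∀ p ∈ T, ∀ a ∈ S p, IsAlgebraic ℚ a) (ι : PadicAlgCl ℓ →+* ℂ)
    (ρ : Gal(AlgebraicClosure ℚ/ℚ) →* GL (Fin n) (PadicAlgCl ℓ)) (hρ : Continuous ρ)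
    (hS : ∀ p ∈ T, AttachedAt ρ ι p (S p)) :
    (∀ U, Stable ρ U → ∃ N : ℕ, 0 < N ∧ ∃ c : ℤ, ∀ p ∈ T, ∃ B ≤ S p,
      Multiset.card B = finrank (PadicAlgCl ℓ) U ∧ B.prod ^ N = (p : ℂ) ^ c) ∧
    (∀ p ∈ T, ∀ E : Subfield ℂ, IrreducibleOver E (S p) → TwoUnrelated (S p) →
      (n.Prime → IsIrreducible ρ) ∧ (DoublyTransitiveOver E (S p) → IsIrreducible ρ) ∧
      ∀ q k : ℕ, q.Prime → n = q ^ k → ∀ U, Stable ρ U → q ∣ finrank (PadicAlgCl ℓ) U) ∧
    (∀ p ∈ T, Independent (S p) → IsIrreducible ρ) ∧
    (∀ p ∈ T, ∀ (g : ℕ) (α : Fin g → ℂ) (μ : ℂ), Paired p (S p) g α μ →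
      ∀ (U : Submodule (PadicAlgCl ℓ) (Fin n → PadicAlgCl ℓ)) (_ : Stable ρ U)
        (Q : Ideal (𝓞 (AlgebraicClosure ℚ))) (σ : Gal(AlgebraicClosure ℚ/ℚ)), PrimeOver p Q →
        IsFrobenius p Q σ → ∀ hU : ∀ x ∈ U, (mat ρ σ⁻¹).mulVecLin x ∈ U, ∃ I : Finset (Fin g),
          ((((mat ρ σ⁻¹).mulVecLin.restrict hU).charpoly).map ι).roots =
            I.val.map α + I.val.map fun i => μ / α i) := by
  classical
  have hgood : ∀ p ∈ T, ∀ Q : Ideal (𝓞 (AlgebraicClosure ℚ)), Q.IsPrime →
      (p : 𝓞 (AlgebraicClosure ℚ)) ∈ Q → ∀ g, IsFrobenius p Q g →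
      ((mat ρ g⁻¹).charpoly.map ι).roots = S p :=
    fun p hp Q' hQ' hpQ' g hg => (hS p hp).frobenius Q' ⟨hQ', hpQ'⟩ g hg
  have hrel := fun (U : Submodule (PadicAlgCl ℓ) (Fin n → PadicAlgCl ℓ)) (hU : Stable ρ U) =>
    Pool.Agent.Q70.IR.relation ρ hρ ι T hT3 hT S hgood halg U (fun g x hx => hU g x hx)
  have hfrob : ∀ p ∈ T, ∃ (Q : Ideal (𝓞 (AlgebraicClosure ℚ))) (σ : Gal(AlgebraicClosure ℚ/ℚ)),
      Q.IsPrime ∧ (p : 𝓞 (AlgebraicClosure ℚ)) ∈ Q ∧ IsFrobenius p Q σ := by
    intro p hp
    obtain ⟨Q, σ, hQ, hpQ, hσ⟩ := Pool.Agent.Y115.T.exists_frobQ (hT p hp).1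
    exact ⟨Q, σ, hQ.isPrime, hpQ, hσ⟩
  have hcard : ∀ p ∈ T, Multiset.card (S p) = n := by
    intro p hp
    obtain ⟨Q, σ, hQ, hpQ, hσ⟩ := hfrob p hp
    rw [← hgood p hp Q hQ hpQ σ hσ]
    exact Pool.Agent.Q70.IR.card_eigenvalues ρ ι σ⁻¹
  have hp0 : ∀ p ∈ T, p ≠ 0 := fun p hp => (hT p hp).1.ne_zero
  have one : ∀ U, Stable ρ U → ∃ N : ℕ, 0 < N ∧ ∃ c : ℤ, ∀ p ∈ T, ∃ B ≤ S p,
      Multiset.card B = finrank (PadicAlgCl ℓ) U ∧ B.prod ^ N = (p : ℂ) ^ c := by
    intro U hU
    obtain ⟨N, hN, c, h⟩ := hrel U hU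
    refine ⟨N, hN, c, fun p hp => ?_⟩
    obtain ⟨Q, σ, hQ, hpQ, hσ⟩ := hfrob p hp
    obtain ⟨h1, h2, h3⟩ := h p hp Q σ hQ hpQ hσ
    exact ⟨_, h1, h2, h3⟩
  have htop : Stable ρ ⊤ := fun g x _ => Submodule.mem_top
  have hfull : ∀ p ∈ T, ∃ M : ℕ, 0 < M ∧ ∃ d : ℤ, (S p).prod ^ M = (p : ℂ) ^ d := by
    intro p hp
    obtain ⟨M, hM, d, h⟩ := one ⊤ htop
    obtain ⟨B, hB, hBc, hBp⟩ := h p hp
    have h1 : B = S p := by
      refine Multiset.eq_of_le_of_card_le hB ?_
      rw [hcard p hp, hBc, finrank_top, Module.finrank_fin_fun]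
    rw [h1] at hBp
    exact ⟨M, hM, d, hBp⟩
  have hzero : ∀ p ∈ T, (0 : ℂ) ∉ S p := by
    intro p hp h0
    obtain ⟨M, hM, d, h⟩ := hfull p hp
    rw [Multiset.prod_eq_zero h0, zero_pow hM.ne'] at h
    exact zpow_ne_zero d (Nat.cast_ne_zero.2 (hp0 p hp)) h.symm
  have hend : ∀ U : Submodule (PadicAlgCl ℓ) (Fin n → PadicAlgCl ℓ),
      finrank (PadicAlgCl ℓ) U = 0 ∨ finrank (PadicAlgCl ℓ) U = n → U = ⊥ ∨ U = ⊤ := by
    intro U h
    rcases h with h | h
    · exact Or.inl (Submodule.finrank_eq_zero.1 h)
    · refine Or.inr (Submodule.eq_top_of_finrank_eq ?_)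
      rw [h, Module.finrank_fin_fun]
  refine ⟨one, ?_, ?_, ?_⟩
  · rintro p hp E ⟨P, hP, hPS⟩ ⟨x, hx, y, hy, hxy⟩
    have hz := hzero p hp
    have hc := hcard p hp
    rw [← hPS] at hx hy hz hc
    have hdeg : P.natDegree = n := by
      rw [← hc, ← (IsAlgClosed.splits (P.map (algebraMap E ℂ))).natDegree_eq_card_roots,
        Polynomial.natDegree_map]
    have hpow : ∀ q k : ℕ, q.Prime → n = q ^ k → ∀ U, Stable ρ U →
        q ∣ finrank (PadicAlgCl ℓ) U := by
      intro q k hq hnk U hU
      obtain ⟨N, hN, c, h⟩ := one U hU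
      obtain ⟨B, hB, hBc, hBp⟩ := h p hp
      rw [← hPS] at hB
      rw [← hBc]
      exact Pool.Agent.Q70.IR.prime_power_case P hP hq (hdeg.trans hnk) (hp0 p hp) hz hx hy hxy hB hN
        hBp
    refine ⟨fun hnp => ⟨hn, fun U hU => hend U ?_⟩, fun h2 => ⟨hn, fun U hU => hend U ?_⟩, hpow⟩
    · have h1 := hpow n 1 hnp (pow_one n).symm U hU
      have h2 : finrank (PadicAlgCl ℓ) U ≤ n := by
        have h3 := Submodule.finrank_le U
        rwa [Module.finrank_fin_fun] at h3
      rcases Nat.eq_zero_or_pos (finrank (PadicAlgCl ℓ) U) with h3 | h3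
      · exact Or.inl h3
      · exact Or.inr (le_antisymm h2 (Nat.le_of_dvd h3 h1))
    · obtain ⟨N, hN, c, h⟩ := one U hU
      obtain ⟨B, hB, hBc, hBp⟩ := h p hp
      have h3 := Pool.Agent.Q70.IR.two_case P hP (hT p hp).1.one_lt (by
        intro a b c d ha hb hc hd hab hcd
        rw [hPS] at ha hb hc hd
        obtain ⟨σ, hσ, h4, h5⟩ := h2 a ha b hb c hc d hd hab hcd
        exact ⟨AlgEquiv.ofRingEquiv (f := σ) fun x => hσ x x.2, h4, h5⟩) hz hx hy hxy
        (hPS ▸ hB) hN hBp
      rw [hPS] at h3
      rcases h3 with h3 | h3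
      · left
        rw [← hBc, h3, Multiset.card_zero]
      · right
        rw [← hBc, h3, hcard p hp]
  · rintro p hp ⟨hnd, hind⟩
    refine ⟨hn, fun U hU => hend U ?_⟩
    obtain ⟨N, hN, c, h⟩ := one U hU
    obtain ⟨B, hB, hBc, hBp⟩ := h p hp
    obtain ⟨M, hM, d, hd⟩ := hfull p hp
    rcases Pool.Agent.Q70.IR.indep_case hnd hind hB hN hM hBp hd (hzero p hp) with h3 | h3
    · left
      rw [← hBc, h3, Multiset.card_zero]
    · right
      rw [← hBc, h3, hcard p hp]
  · rintro p hp g α μ ⟨heq, ⟨M, hM, d, hd⟩, hind⟩ U hU Q σ hQ hσ hUσ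
    obtain ⟨N, hN, c, h⟩ := hrel U hU
    obtain ⟨h1, -, h3⟩ := h p hp Q σ hQ.1 hQ.2 hσ
    have hz := hzero p hp
    rw [heq] at h1 hz
    have hα0 : ∀ i, α i ≠ 0 := by
      intro i hi
      apply hz
      rw [Multiset.mem_add]
      left
      rw [← hi]
      exact Multiset.mem_map_of_mem α (Finset.mem_univ i)
    have hμ0 : μ ≠ 0 := by
      intro h0
      rw [h0, zero_pow hM.ne'] at hd
      exact zpow_ne_zero d (Nat.cast_ne_zero.2 (hp0 p hp)) hd.symm
    exact Pool.Agent.Q70.IR.paired_case α hM hd hμ0 hα0 (hp0 p hp) hind h1 hN h3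

end Pool.Agent.Results.MP_fa5bba_nt.OneSatakePolynomial
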