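import Pool.Agent.Results.MP_fa5bba_nt.SteinbergTypePlace
import Pool.Agent.Q128.IR.Rel

/-!
# Irreducibility for every `ℓ` from the Satake parameters at a few primes

Let `π` be an algebraic cuspidal automorphic representation of `GL_n` over `ℚ`, and let `S p` be the
multiset of the eigenvalues of its normalised Satake parameter at `p`.  Every subrepresentation of
dimension `k`, `0 < k < n`, of a continuous representation `ρ` attached to `π` gives a
*multiplicative relation with common exponents* between the Satake parameters at all primes `p ≠ ℓ`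
of a given set `T` of at least three primes: there are integers `M > 0`, `a`, `D` such that for
**every** `p ∈ T` the multiset `S p` is the sum of a multiset of `k` members with
product`^ M = p ^ a` and a multiset of `n - k` members with product`^ M = p ^ (D - a)`; and
`|n a - k D| < k (n - k) M` by the bound of Jacquet and Shalika at one prime in `T`.  So the Satake
parameters at four primes decide irreducibility for **all** `ℓ` and **all** `ρ` at once as soon as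
there is no such relation.  In the tempered case: `ρ` is irreducible for all `ℓ` if at two primes
no product of at most `n / 2` of the Satake parameters is a root of unity times its absolute value.

Nothing is assumed on `π_∞` (no regularity), no self-duality, nothing at `ℓ` (no Hodge-Tate or de
Rham condition), and nothing on the primes outside `T`.  The point which is not a formality is that
the determinant of the subrepresentation is not known to be of Hodge-Tate type; the `ℓ`-adic six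
exponentials theorem of the library `Pool.Agent.Y115` replaces it.
-/

set_option autoImplicit false

namespace Pool.Agent.Results.MP_fa5bba_nt.SatakeRelations

open NumberField Polynomial Matrix Module
open Pool.Agent.Results.MP_fa5bba_nt.SteinbergTypePlace

/-- A relation of size `k` with common exponents between the members of the multisets `S p`,
`p ∈ T`: integers `M > 0`, `a`, `D` with `|n a - k D| < k (n - k) M` such that for every `p ∈ T` the
multiset `S p` is the sum of a multiset of `k` members with product`^ M = p ^ a` and a multiset with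
product`^ M = p ^ (D - a)`. -/
def Relation (S : ℕ → Multiset ℂ) (T : Set ℕ) (n k : ℕ) : Prop :=
  ∃ (M : ℕ) (a D : ℤ), 0 < M ∧ |(n : ℤ) * a - k * D| < k * ((n : ℤ) - k) * M ∧
    ∀ p ∈ T, ∃ A B : Multiset ℂ, A + B = S p ∧ Multiset.card A = k ∧
      A.prod ^ M = (p : ℂ) ^ a ∧ B.prod ^ M = (p : ℂ) ^ (D - a)

/-- The numbers in `S p` are algebraic for the prime numbers `p ∈ T`. -/
def AlgebraicOn (S : ℕ → Multiset ℂ) (T : Set ℕ) : Prop :=
  ∀ p ∈ T, p.Prime ∧ ∀ a ∈ S p, IsAlgebraic ℚ a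

/-- The bound of Jacquet and Shalika at `p`. -/
def BoundAt (S : ℕ → Multiset ℂ) (p : ℕ) : Prop := ∀ a ∈ S p, ∀ b ∈ S p, ‖a‖ < p * ‖b‖

/-- All the numbers in `S p` have absolute value `p ^ (w / 2)`, and no product of `k` of them,
`1 ≤ k ≤ n / 2`, divided by its absolute value, is a root of unity. -/
def TemperedGenericAt (S : ℕ → Multiset ℂ) (n : ℕ) (w : ℤ) (p : ℕ) : Prop :=
  (∀ a ∈ S p, ‖a‖ ^ 2 = (p : ℝ) ^ w) ∧
    ∀ A ≤ S p, 0 < Multiset.card A → 2 * Multiset.card A ≤ n → ∀ N : ℕ, 0 < N →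
      A.prod ^ (2 * N) ≠ (p : ℂ) ^ (w * Multiset.card A * N)

theorem stable_iff {ℓ : ℕ} [Fact ℓ.Prime] {n : ℕ}
    (ρ : Gal(AlgebraicClosure ℚ/ℚ) →* GL (Fin n) (PadicAlgCl ℓ))
    (U : Submodule (PadicAlgCl ℓ) (Fin n → PadicAlgCl ℓ)) (hU : Stable ρ U) :
    ∀ g, U ≤ U.comap (Pool.Agent.Y115.R.act ρ g) := fun g x hx => hU g x hx

theorem part1 (ℓ : ℕ) [Fact ℓ.Prime] {n : ℕ} (S : ℕ → Multiset ℂ) (T : Set ℕ)
    (hT3 : 3 ≤ T.encard) (hT : AlgebraicOn S T) (hℓ : ℓ ∉ T) (hJS : ∃ p ∈ T, BoundAt S p)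
    (ι : PadicAlgCl ℓ →+* ℂ)
    (ρ : Gal(AlgebraicClosure ℚ/ℚ) →* GL (Fin n) (PadicAlgCl ℓ)) (hρ : Continuous ρ)
    (hS : ∀ p ∈ T, AttachedAt ρ ι p (S p))
    (U : Submodule (PadicAlgCl ℓ) (Fin n → PadicAlgCl ℓ)) (hU : Stable ρ U) :
    U = ⊥ ∨ U = ⊤ ∨ Relation S T n (finrank (PadicAlgCl ℓ) U) := by
  obtain ⟨p₁, hp₁, hJS⟩ := hJS
  by_cases h0 : finrank (PadicAlgCl ℓ) U = 0
  · exact Or.inl (Submodule.finrank_eq_zero.1 h0)
  by_cases h1 : finrank (PadicAlgCl ℓ) U < n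
  · right
    right
    have hgood : ∀ p ∈ T, ∀ Q : Ideal (𝓞 (AlgebraicClosure ℚ)), Q.IsPrime →
        (p : 𝓞 (AlgebraicClosure ℚ)) ∈ Q → ∀ g, IsFrobenius p Q g →
        ((mat ρ g⁻¹).charpoly.map ι).roots = S p :=
      fun p hp Q' hQ' hpQ' g hg => (hS p hp).frobenius Q' ⟨hQ', hpQ'⟩ g hg
    exact Pool.Agent.Q128.IR.rel_of ρ hρ ι T hT3
      (fun p hp => ⟨(hT p hp).1, fun h => hℓ (h ▸ hp)⟩) S hgood (fun p hp => (hT p hp).2) hp₁ hJS U
      (stable_iff ρ U hU) (Nat.pos_of_ne_zero h0) h1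
  · right
    left
    apply Submodule.eq_top_of_finrank_eq
    have h2 := Submodule.finrank_le U
    rw [finrank_fin_fun] at h2 ⊢
    omega

theorem card_of_attached {ℓ : ℕ} [Fact ℓ.Prime] {n : ℕ} {S : ℕ → Multiset ℂ} {p : ℕ}
    (hp : p.Prime) {ι : PadicAlgCl ℓ →+* ℂ}
    {ρ : Gal(AlgebraicClosure ℚ/ℚ) →* GL (Fin n) (PadicAlgCl ℓ)} (h : AttachedAt ρ ι p (S p)) :
    Multiset.card (S p) = n := by
  obtain ⟨P, σ, hP, hpP, hσ⟩ := Pool.Agent.Y115.T.exists_frobQ hp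
  have h1 := h.frobenius P ⟨hP.isPrime, hpP⟩ σ hσ
  have hsplit : ((mat ρ σ⁻¹).charpoly.map ι).Splits := IsAlgClosed.splits _
  rw [← h1, ← hsplit.natDegree_eq_card_roots, Polynomial.natDegree_map,
    Matrix.charpoly_natDegree_eq_dim, Fintype.card_fin]

theorem part2 {n : ℕ} (hn : 0 < n) (S : ℕ → Multiset ℂ) (T : Set ℕ)
    (hT4 : 4 ≤ T.encard) (hT : AlgebraicOn S T) (hJS : ∃ p ∈ T, ∃ q ∈ T, p ≠ q ∧ BoundAt S p ∧
      BoundAt S q)
    (ℓ : ℕ) [Fact ℓ.Prime] (hrel : ∀ k, 0 < k → 2 * k ≤ n → ¬ Relation S (T \ {ℓ}) n k)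
    (ι : PadicAlgCl ℓ →+* ℂ)
    (ρ : Gal(AlgebraicClosure ℚ/ℚ) →* GL (Fin n) (PadicAlgCl ℓ)) (hρ : Continuous ρ)
    (hS : ∀ p ∈ T, p ≠ ℓ → AttachedAt ρ ι p (S p)) : Irreducible ρ := by
  refine ⟨hn, fun U hU => ?_⟩
  have h3 : 3 ≤ (T \ {ℓ}).encard := by
    by_contra hcon
    push Not at hcon
    have h1 : T.encard ≤ (T \ {ℓ}).encard + 1 := by
      refine (Set.encard_le_encard (t := (T \ {ℓ}) ∪ {ℓ}) (by simp)).trans ?_
      refine (Set.encard_union_le _ _).trans ?_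
      rw [Set.encard_singleton]
    have h2 : (T \ {ℓ}).encard + 1 < 3 + 1 := by
      exact (ENat.add_lt_add_iff_right (by simp)).2 hcon
    have h4 := hT4.trans h1
    have h5 : (3 : ℕ∞) + 1 = 4 := by norm_num
    rw [h5] at h2
    exact absurd h4 (not_le.2 h2)
  obtain ⟨p, hp, q, hq, hpq, hJp, hJq⟩ := hJS
  have hJ : ∃ p ∈ T \ {ℓ}, BoundAt S p := by
    by_cases h : p = ℓ
    · refine ⟨q, ⟨hq, ?_⟩, hJq⟩
      rintro rfl
      exact hpq h
    · exact ⟨p, ⟨hp, h⟩, hJp⟩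
  rcases part1 ℓ S (T \ {ℓ}) h3 (fun p hp => hT p hp.1) (fun h => h.2 rfl) hJ ι ρ hρ
    (fun p hp => hS p hp.1 hp.2) U hU with h | h | h
  · exact Or.inl h
  · exact Or.inr h
  · exfalso
    set k := finrank (PadicAlgCl ℓ) U with hk
    by_cases h0 : k = 0
    · obtain ⟨M, a, D, hM, hlt, -⟩ := h
      rw [h0] at hlt
      simp only [Nat.cast_zero, zero_mul] at hlt
      exact absurd hlt (not_lt.2 (abs_nonneg _))
    have hkn : k ≤ n := by
      have h2 := Submodule.finrank_le U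
      rwa [finrank_fin_fun] at h2
    by_cases h2 : 2 * k ≤ n
    · exact hrel k (Nat.pos_of_ne_zero h0) h2 h
    · by_cases h1 : k = n
      · obtain ⟨M, a, D, hM, hlt, -⟩ := h
        rw [h1] at hlt
        simp only [sub_self, mul_zero, zero_mul] at hlt
        exact absurd hlt (not_lt.2 (abs_nonneg _))
      · refine hrel (n - k) (by omega) (by omega) ?_
        refine Pool.Agent.Q128.IR.rel_symm hkn (fun p hp => ?_) h
        exact card_of_attached (hT p hp.1).1 (hS p hp.1 hp.2)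

theorem no_relation {S : ℕ → Multiset ℂ} {n : ℕ} {w : ℤ} {T : Set ℕ} {p : ℕ} (hpp : p.Prime)
    (hp : p ∈ T) (h : TemperedGenericAt S n w p) (k : ℕ) (hk : 0 < k) (hkn : 2 * k ≤ n) :
    ¬ Relation S T n k := by
  rintro ⟨M, a, D, hM, -, hrel⟩
  obtain ⟨A, B, hAB, hA, hAa, -⟩ := hrel p hp
  have hle : A ≤ S p := by
    rw [← hAB]
    exact Multiset.le_add_right _ _
  have hpr : (0 : ℝ) < p := by exact_mod_cast hpp.pos
  have hnorm : ‖A.prod‖ ^ 2 = (p : ℝ) ^ (w * k) := by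
    have h1 : ∀ C : Multiset ℂ, (∀ a ∈ C, ‖a‖ ^ 2 = (p : ℝ) ^ w) →
        ‖C.prod‖ ^ 2 = (p : ℝ) ^ (w * (Multiset.card C : ℤ)) := by
      intro C
      induction C using Multiset.induction_on with
      | empty => simp
      | cons c C ih =>
        intro hC
        rw [Multiset.prod_cons, norm_mul, mul_pow, hC c (Multiset.mem_cons_self _ _),
          ih (fun a ha => hC a (Multiset.mem_cons_of_mem ha)), ← zpow_add₀ hpr.ne',
          Multiset.card_cons]
        congr 1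
        push_cast
        ring
    rw [h1 A (fun a ha => h.1 a (Multiset.mem_of_le hle ha)), hA]
  have h2 : (p : ℝ) ^ (w * k * M) = (p : ℝ) ^ (2 * a) := by
    have h3 := congrArg (fun z => ‖z‖ ^ 2) hAa
    simp only [norm_pow, norm_zpow, Complex.norm_natCast] at h3
    have h5 : ((p : ℝ) ^ a) ^ 2 = (p : ℝ) ^ (2 * a) := by
      rw [two_mul, zpow_add₀ hpr.ne', sq]
    rw [_root_.zpow_mul, ← hnorm, zpow_natCast, ← pow_mul, mul_comm 2 M, pow_mul, h3, h5]
  have h4 : w * k * M = 2 * a := zpow_right_injective₀ hpr (by exact_mod_cast hpp.one_lt.ne') h2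
  refine h.2 A hle (by omega) (by omega) M hM ?_
  have hpc : (p : ℂ) ≠ 0 := by exact_mod_cast hpp.ne_zero
  rw [hA, h4, mul_comm 2 M, pow_mul, hAa, two_mul, zpow_add₀ hpc, sq]

/-- **Irreducibility for every `ℓ` from the Satake parameters at a few primes.** -/
theorem result {n : ℕ} (hn : 0 < n) (S : ℕ → Multiset ℂ) (T : Set ℕ) (hT : AlgebraicOn S T) :
    -- (1) every subrepresentation gives a relation with common exponents
    (3 ≤ T.encard → (∃ p ∈ T, BoundAt S p) → ∀ (ℓ : ℕ) [Fact ℓ.Prime], ℓ ∉ T →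
      ∀ (ι : PadicAlgCl ℓ →+* ℂ) (ρ : Gal(AlgebraicClosure ℚ/ℚ) →* GL (Fin n) (PadicAlgCl ℓ)),
        Continuous ρ → (∀ p ∈ T, AttachedAt ρ ι p (S p)) →
        ∀ U : Submodule (PadicAlgCl ℓ) (Fin n → PadicAlgCl ℓ), Stable ρ U →
          U = ⊥ ∨ U = ⊤ ∨ Relation S T n (finrank (PadicAlgCl ℓ) U)) ∧
    -- (2) four primes decide for all `ℓ` if there is no relation
    (4 ≤ T.encard → (∃ p ∈ T, ∃ q ∈ T, p ≠ q ∧ BoundAt S p ∧ BoundAt S q) →
      ∀ (ℓ : ℕ) [Fact ℓ.Prime], (∀ k, 0 < k → 2 * k ≤ n → ¬ Relation S (T \ {ℓ}) n k) →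
      ∀ (ι : PadicAlgCl ℓ →+* ℂ) (ρ : Gal(AlgebraicClosure ℚ/ℚ) →* GL (Fin n) (PadicAlgCl ℓ)),
        Continuous ρ → (∀ p ∈ T, p ≠ ℓ → AttachedAt ρ ι p (S p)) → Irreducible ρ) ∧
    -- (3) tempered case
    (4 ≤ T.encard → (∃ p ∈ T, ∃ q ∈ T, p ≠ q ∧ (∃ w, TemperedGenericAt S n w p) ∧
        ∃ w, TemperedGenericAt S n w q) →
      ∀ (ℓ : ℕ) [Fact ℓ.Prime] (ι : PadicAlgCl ℓ →+* ℂ)
        (ρ : Gal(AlgebraicClosure ℚ/ℚ) →* GL (Fin n) (PadicAlgCl ℓ)),
        Continuous ρ → (∀ p ∈ T, p ≠ ℓ → AttachedAt ρ ι p (S p)) → Irreducible ρ) := by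
  refine ⟨fun h3 hJS ℓ _ hℓ ι ρ hρ hS U hU => part1 ℓ S T h3 hT hℓ hJS ι ρ hρ hS U hU,
    fun h4 hJS ℓ _ hrel ι ρ hρ hS => part2 hn S T h4 hT hJS ℓ hrel ι ρ hρ hS, ?_⟩
  rintro h4 ⟨p, hp, q, hq, hpq, ⟨w, hgp⟩, ⟨w', hgq⟩⟩ ℓ _ ι ρ hρ hS
  have hJ : ∀ (p : ℕ) (w : ℤ), p ∈ T → TemperedGenericAt S n w p → BoundAt S p := by
    intro p w hp hg a ha b hb
    have hpp := (hT p hp).1
    have hpr : (0 : ℝ) < p := by exact_mod_cast hpp.pos
    have h1 : ‖a‖ = ‖b‖ := by
      have h2 := (hg.1 a ha).trans (hg.1 b hb).symm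
      exact (pow_left_inj₀ (norm_nonneg _) (norm_nonneg _) two_ne_zero).1 h2
    have h2 : 0 < ‖b‖ := by
      rcases (norm_nonneg b).lt_or_eq with h | h
      · exact h
      · have h3 := hg.1 b hb
        rw [← h, zero_pow two_ne_zero] at h3
        exact absurd h3.symm (zpow_pos hpr w).ne'
    rw [h1]
    have h3 : (1 : ℝ) < p := by exact_mod_cast hpp.one_lt
    nlinarith
  refine part2 hn S T h4 hT ⟨p, hp, q, hq, hpq, hJ p w hp hgp, hJ q w' hq hgq⟩ ℓ ?_ ι ρ hρ hS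
  intro k hk hkn
  by_cases h : p = ℓ
  · exact no_relation (T := T \ {ℓ}) (hT q hq).1 ⟨hq, fun h' => hpq (h.trans (Eq.symm h'))⟩ hgq k hk hkn
  · exact no_relation (T := T \ {ℓ}) (hT p hp).1 ⟨hp, h⟩ hgp k hk hkn

end Pool.Agent.Results.MP_fa5bba_nt.SatakeRelations
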