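import Mathlib
import Pool.Agent.Q112.FT.Twist

/-!
# Irreducibility of Galois representations which become sums of twists over a nilpotent extension

`π` is an algebraic cuspidal automorphic representation of `GL_n` over `ℚ`, `W` is the absolute
Galois group of `ℚ`, `ρ` is a semisimple representation of `W` attached to `π`, `K/ℚ` is a Galois
extension with nilpotent group, `A` is the absolute Galois group of `K`, and `S_i` are
representations of `W` attached to automorphic representations over `ℚ` (the trivial one, the
symmetric powers of newforms which are not of CM type, ...) without nontrivial selftwists over `K`.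
If all the irreducible constituents of `ρ` over `K` are twists of some `S_i`, then `ρ` is
irreducible.
-/

set_option autoImplicit false

namespace Pool.Agent.Results.MP_fa5bba_nt.TwistsOverNilpotent

open Pool.Agent.Q112.FT

variable {W V : Type} [Group W] [AddCommGroup V] [Module ℂ V]

/-- The known theorems on automorphy. `H` runs through the subgroups of `W` of finite index which
contain `A`; the field `K_H` of `H` is reached from `ℚ` by cyclic extensions of prime degree, as the
Galois group of `K/ℚ` is nilpotent. `aut H U` says that the representation `U` of `H` is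
automorphic: there is an isobaric automorphic representation of the general linear group over `K_H`
whose Satake parameters are the eigenvalues of Frobenius on `U` at almost all places. -/
structure KnownTheorems {ι : Type} {E : ι → Type} [∀ i, AddCommGroup (E i)] [∀ i, Module ℂ (E i)]
    (R : Representation ℂ W V) (A : Subgroup W) (S : ∀ i, Representation ℂ W (E i))
    (aut : Subgroup W → Submodule ℂ V → Prop) : Prop where
  /-- base change to `K_H` (Arthur, Clozel) and twist by a character (class field theory) -/
  twist : ∀ H U i, A ≤ H → Stable R H U → IsTwist R (S i) H U → aut H U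
  /-- automorphic induction from a cyclic extension of prime degree (Arthur, Clozel) -/
  induction : ∀ H M U U₀, A ≤ M → M ≤ H → (∀ h ∈ H, ∀ m ∈ M, h * m * h⁻¹ ∈ M) →
    (M.relIndex H).Prime → Stable R M U₀ → Stable R H U → IsInduced R M H U₀ U →
    aut M U₀ → aut H U
  /-- isobaric sums -/
  sum : ∀ H U U', aut H U → aut H U' → Disjoint U U' → aut H (U ⊔ U')
  /-- strong multiplicity one (Jacquet, Shalika): the cuspidal representation `π` attached to
  `V` is not a proper isobaric sum -/
  cuspidal : ∀ U U', aut ⊤ U → aut ⊤ U' → IsCompl U U' → U = ⊥ ∨ U' = ⊥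

/-- **Irreducibility.** Let `W / A` be finite and nilpotent and let `S_i` be representations of `W`
without nontrivial selftwists over `A`. Let `R` be a semisimple representation of `W` all of whose
irreducible constituents over `A` are twists of some `S_i`. If the known theorems hold (in
particular `R` is attached to a cuspidal representation), then `R` is irreducible. -/
theorem result {ι : Type} {E : ι → Type} [∀ i, AddCommGroup (E i)] [∀ i, Module ℂ (E i)]
    [FiniteDimensional ℂ V] [Nontrivial V] (A : Subgroup W) [A.Normal] [Finite (W ⧸ A)]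
    [Group.IsNilpotent (W ⧸ A)] (R : Representation ℂ W V)
    (hss : ∀ U : Submodule ℂ V, Stable R ⊤ U → ∃ U', Stable R ⊤ U' ∧ IsCompl U U')
    (S : ∀ i, Representation ℂ W (E i)) (hS : ∀ i, NoSelfTwist (S i) A)
    (hA : ∀ U : Submodule ℂ V, Irr R A U → ∃ i, IsTwist R (S i) A U)
    (aut : Subgroup W → Submodule ℂ V → Prop) (haut : KnownTheorems R A S aut) :
    Irr R ⊤ ⊤ := by
  classical
  have hirr : ∀ U : Submodule ℂ V, Irr R ⊤ U → aut ⊤ U := fun U hU =>
    irr_aut A R S hS hA aut ⟨haut.twist, haut.induction⟩ le_top hU
  -- all nonzero stable subspaces are automorphic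
  have hall : ∀ (n : ℕ) (U : Submodule ℂ V), Module.finrank ℂ U ≤ n → Stable R ⊤ U → U ≠ ⊥ →
      aut ⊤ U := by
    intro n
    induction n with
    | zero =>
      intro U hn _ hU
      exact absurd (Submodule.finrank_eq_zero.1 (Nat.le_zero.1 hn)) hU
    | succ n ih =>
      intro U hn hst hU
      by_cases h : Irr R ⊤ U
      · exact hirr U h
      · have h1 : ∃ U', U' ≤ U ∧ Stable R ⊤ U' ∧ U' ≠ ⊥ ∧ U' ≠ U := by
          by_contra hcon
          push Not at hcon
          exact h ⟨hst, hU, fun U' h1 h2 => or_iff_not_imp_left.2 fun h3 => hcon U' h1 h2 h3⟩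
        obtain ⟨U₁, hle, hst₁, hne, hneU⟩ := h1
        obtain ⟨T, hT, hc⟩ := hss U₁ hst₁
        have hst₂ : Stable R ⊤ (T ⊓ U) := fun g hg u hu => ⟨hT g hg u hu.1, hst g hg u hu.2⟩
        have hsup : U₁ ⊔ T ⊓ U = U := by
          rw [← sup_inf_assoc_of_le _ hle, hc.sup_eq_top, top_inf_eq]
        have hdis : Disjoint U₁ (T ⊓ U) := hc.disjoint.mono_right inf_le_left
        have hne₂ : T ⊓ U ≠ ⊥ := by
          intro h0
          rw [h0, sup_bot_eq] at hsup
          exact hneU hsup
        have hlt₂ : T ⊓ U < U := by
          refine lt_of_le_of_ne inf_le_right fun h0 => ?_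
          apply hne
          rw [h0] at hdis
          exact hdis.eq_bot_of_le hle
        have hlt₁ : U₁ < U := lt_of_le_of_ne hle hneU
        have h3 := Submodule.finrank_lt_finrank_of_lt hlt₁
        have h4 := Submodule.finrank_lt_finrank_of_lt hlt₂
        rw [← hsup]
        exact haut.sum ⊤ _ _ (ih U₁ (by omega) hst₁ hne) (ih (T ⊓ U) (by omega) hst₂ hne₂) hdis
  refine ⟨fun _ _ _ _ => trivial, top_ne_bot, fun U _ hU => ?_⟩
  obtain ⟨T, hT, hc⟩ := hss U hU
  by_cases h0 : U = ⊥
  · exact Or.inl h0
  · by_cases h1 : T = ⊥
    · right
      have := hc.sup_eq_top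
      rwa [h1, sup_bot_eq] at this
    · rcases haut.cuspidal U T (hall _ U le_rfl hU h0) (hall _ T le_rfl hT h1) hc with h | h
      · exact absurd h h0
      · exact absurd h h1

end Pool.Agent.Results.MP_fa5bba_nt.TwistsOverNilpotent
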